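import Pool.Agent.H65.OrbitDefs
import Pool.Agent.H65.OrbitGrowth

set_option autoImplicit false

namespace Pool.Agent.Results.MP_1babb5_al.Counter
open Pool.Agent.H65.OrbitDefs
open scoped ENNReal

/-- In every rank `k ≥ 3` the conjectured growth formula `(2k-3)^(1/μ(w))` fails: some `w ≠ 1`
has `μ(w) = 3` (for words and for cyclic words) but growth at least `(2k-3)^(1/2)`. -/
theorem result (k : ℕ) (hk : 3 ≤ k) : ∃ w : FreeGroup (Fin k), w ≠ 1 ∧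
    (∀ x : Fin k, mu w x = 3 ∧ muCyc w x = 3) ∧
    ((2 * k - 3 : ℕ) : ℝ≥0∞) ^ (1 / 2 : ℝ) ≤ growth w ∧
    ∀ x : Fin k, growth w ≠ ((2 * k - 3 : ℕ) : ℝ≥0∞) ^ (1 / (mu w x : ℝ)) :=
  Pool.Agent.H65.OrbitGrowth.main k hk

end Pool.Agent.Results.MP_1babb5_al.Counter
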